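import Pool.Agent.V5helper99.DC.Defs

/-!
# Project DC, job J2: the maximal vertices of a linear function on the demicube
-/

set_option autoImplicit false

namespace DC99

theorem J2_card {n : ℕ} (A B : Finset (Fin n)) :
    (symmDiff A B).card + 2 * (A ∩ B).card = A.card + B.card := by
  have h1 : symmDiff A B = (A \ B) ∪ (B \ A) := rfl
  have h2 : Disjoint (A \ B) (B \ A) := by
    rw [Finset.disjoint_left]
    intro x hx hy
    rw [Finset.mem_sdiff] at hx hy
    exact hx.2 hy.1
  rw [h1, Finset.card_union_of_disjoint h2]
  have h3 := Finset.card_sdiff_add_card_inter A B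
  have h4 := Finset.card_sdiff_add_card_inter B A
  rw [Finset.inter_comm B A] at h4
  omega

theorem J2_lin {n : ℕ} (l : StrongDual ℝ (E n)) (x : E n) :
    l x = ∑ i, x i * l (EuclideanSpace.single i 1) := by
  have h : x = ∑ i, x i • EuclideanSpace.single i (1 : ℝ) := by
    ext j
    simp [Pi.single_apply]
  conv_lhs => rw [h]
  rw [map_sum]
  exact Finset.sum_congr rfl fun i _ => by rw [map_smul, smul_eq_mul]

/-- the values at the vertices -/
theorem J2_val {n : ℕ} (l : StrongDual ℝ (E n)) (A N : Finset (Fin n))
    (hN : ∀ i, i ∈ N ↔ l (EuclideanSpace.single i 1) < 0) :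
    l (pt A) = (∑ i, |l (EuclideanSpace.single i 1)|) -
      2 * ∑ i ∈ symmDiff A N, |l (EuclideanSpace.single i 1)| := by
  rw [J2_lin l (pt A)]
  have h1 : ∑ i ∈ symmDiff A N, |l (EuclideanSpace.single i 1)| =
      ∑ i, if i ∈ symmDiff A N then |l (EuclideanSpace.single i 1)| else 0 := by
    rw [Finset.sum_ite_mem, Finset.univ_inter]
  rw [h1, Finset.mul_sum, ← Finset.sum_sub_distrib]
  refine Finset.sum_congr rfl fun i _ => ?_
  have h2 : (pt A) i = if i ∈ A then (-1 : ℝ) else 1 := rfl
  rw [h2]
  have h3 := hN i
  by_cases hA : i ∈ A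
  · by_cases hi : i ∈ N
    · have h4 : i ∉ symmDiff A N := by
        rw [Finset.mem_symmDiff]; tauto
      rw [if_pos hA, if_neg h4, abs_of_neg (h3.1 hi)]
      ring
    · have h4 : i ∈ symmDiff A N := by
        rw [Finset.mem_symmDiff]; tauto
      rw [if_pos hA, if_pos h4, abs_of_nonneg (not_lt.1 fun h => hi (h3.2 h))]
      ring
  · by_cases hi : i ∈ N
    · have h4 : i ∈ symmDiff A N := by
        rw [Finset.mem_symmDiff]; tauto
      rw [if_neg hA, if_pos h4, abs_of_neg (h3.1 hi)]
      ring
    · have h4 : i ∉ symmDiff A N := by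
        rw [Finset.mem_symmDiff]; tauto
      rw [if_neg hA, if_neg h4, abs_of_nonneg (not_lt.1 fun h => hi (h3.2 h))]
      ring

theorem t_J2 {n : ℕ} (l : StrongDual ℝ (E n)) (hn : 1 ≤ n) :
    (∃ V J : Finset (Fin n), Odd V.card ∧ J.Nonempty ∧ am l = JT V J) ∨
    (∃ W S : Finset (Fin n), Odd W.card ∧ 3 ≤ S.card ∧ am l = ST W S) := by
  classical
  set w : Fin n → ℝ := fun i => |l (EuclideanSpace.single i 1)| with hw
  have hw0 : ∀ i, 0 ≤ w i := fun i => abs_nonneg _
  obtain ⟨N, hN⟩ : ∃ N : Finset (Fin n), ∀ i, i ∈ N ↔ l (EuclideanSpace.single i 1) < 0 :=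
    ⟨Finset.univ.filter fun i => l (EuclideanSpace.single i 1) < 0, fun i => by simp⟩
  obtain ⟨Z, hZ⟩ : ∃ Z : Finset (Fin n), ∀ i, i ∈ Z ↔ w i = 0 :=
    ⟨Finset.univ.filter fun i => w i = 0, fun i => by simp⟩
  have hmem : ∀ A, A ∈ am l ↔ Even A.card ∧ ∀ B : Finset (Fin n), Even B.card →
      ∑ i ∈ symmDiff A N, w i ≤ ∑ i ∈ symmDiff B N, w i := by
    intro A
    refine and_congr_right fun _ => forall_congr' fun B => forall_congr' fun _ => ?_
    rw [J2_val l A N hN, J2_val l B N hN]
    constructor <;> intro h <;> linarith
  have hg0 : ∀ B : Finset (Fin n), 0 ≤ ∑ i ∈ B, w i := fun B => Finset.sum_nonneg fun i _ => hw0 i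
  have hgZ : ∀ B : Finset (Fin n), ∑ i ∈ B, w i ≤ 0 ↔ B ⊆ Z := by
    intro B
    constructor
    · intro h i hi
      rw [hZ]
      exact le_antisymm ((Finset.single_le_sum (fun j _ => hw0 j) hi).trans h) (hw0 i)
    · intro h
      exact (Finset.sum_eq_zero fun i hi => (hZ i).1 (h hi)).le
  have hself : ∀ A B : Finset (Fin n), symmDiff (symmDiff A B) B = A := fun A B => symmDiff_symmDiff_cancel_right B A
  rcases Z.eq_empty_or_nonempty with hZe | ⟨z, hz⟩
  · left
    have hpos : ∀ i, 0 < w i := fun i => lt_of_le_of_ne (hw0 i) fun h => by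
      have : i ∈ Z := (hZ i).2 h.symm
      rw [hZe] at this
      exact absurd this (Finset.notMem_empty i)
    rcases Nat.even_or_odd N.card with hNe | hNo
    · -- the maximum is attained only at `N`
      set j : Fin n := ⟨0, hn⟩ with hj
      refine ⟨symmDiff N {j}, {j}, ?_, Finset.singleton_nonempty j, ?_⟩
      · have h1 := J2_card N {j}
        rw [Finset.card_singleton] at h1
        rw [Nat.even_iff] at hNe
        rw [Nat.odd_iff]
        omega
      · ext A
        rw [hmem]
        constructor
        · rintro ⟨-, h2⟩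
          have h3 := h2 N hNe
          rw [symmDiff_self, Finset.bot_eq_empty, Finset.sum_empty, hgZ, hZe, Finset.subset_empty] at h3
          refine ⟨j, Finset.mem_singleton_self j, ?_⟩
          rw [hself]
          have h4 := hself A N
          rw [h3] at h4
          rw [← h4]
          exact (bot_symmDiff N)
        · rintro ⟨i, hi, rfl⟩
          rw [Finset.mem_singleton] at hi
          subst hi
          rw [hself]
          refine ⟨hNe, fun B _ => ?_⟩
          rw [symmDiff_self, Finset.bot_eq_empty, Finset.sum_empty]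
          exact hg0 _
    · -- the neighbours of `N`
      obtain ⟨j₀, -, hj₀⟩ := Finset.exists_min_image Finset.univ w ⟨⟨0, hn⟩, Finset.mem_univ _⟩
      refine ⟨N, Finset.univ.filter fun i => w i = w j₀, hNo, ⟨j₀, by simp⟩, ?_⟩
      have hodd : ∀ B : Finset (Fin n), Even B.card → (symmDiff B N).card % 2 = 1 := by
        intro B hB
        have h1 := J2_card B N
        rw [Nat.even_iff] at hB
        rw [Nat.odd_iff] at hNo
        omega
      have heven : ∀ j : Fin n, Even (symmDiff N {j}).card := by
        intro j
        have h1 := J2_card N {j}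
        rw [Finset.card_singleton] at h1
        rw [Nat.odd_iff] at hNo
        rw [Nat.even_iff]
        omega
      have hsj : ∀ j : Fin n, symmDiff (symmDiff N {j}) N = {j} := by
        intro j
        rw [symmDiff_comm N {j}, hself]
      ext A
      rw [hmem]
      constructor
      · rintro ⟨h1, h2⟩
        have h3 := h2 _ (heven j₀)
        rw [hsj, Finset.sum_singleton] at h3
        have h4 := hodd A h1
        have h5 : (symmDiff A N).card = 1 := by
          by_contra hne
          obtain ⟨a, ha, b, hb, hab⟩ := Finset.one_lt_card.1 (by omega : 1 < (symmDiff A N).card)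
          have h6 : w a + w b ≤ ∑ i ∈ symmDiff A N, w i := by
            rw [← Finset.sum_pair hab]
            refine Finset.sum_le_sum_of_subset_of_nonneg ?_ fun i _ _ => hw0 i
            intro i hi
            rw [Finset.mem_insert, Finset.mem_singleton] at hi
            rcases hi with rfl | rfl
            · exact ha
            · exact hb
          have h7 := hj₀ a (Finset.mem_univ a)
          have h8 := hpos b
          linarith
        obtain ⟨j, hj⟩ := Finset.card_eq_one.1 h5
        rw [hj, Finset.sum_singleton] at h3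
        refine ⟨j, ?_, ?_⟩
        · rw [Finset.mem_filter]
          exact ⟨Finset.mem_univ j, le_antisymm h3 (hj₀ j (Finset.mem_univ j))⟩
        · have h6 := hself A N
          rw [hj] at h6
          rw [← h6, symmDiff_comm]
      · rintro ⟨j, hj, rfl⟩
        rw [Finset.mem_filter] at hj
        refine ⟨heven j, fun B hB => ?_⟩
        rw [hsj, Finset.sum_singleton, hj.2]
        have h4 := hodd B hB
        obtain ⟨i, hi⟩ := Finset.card_pos.1 (by omega : 0 < (symmDiff B N).card)
        exact (hj₀ i (Finset.mem_univ i)).trans (Finset.single_le_sum (fun j _ => hw0 j) hi)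
  · -- `Z` is not empty
    obtain ⟨V, hVo, hVN⟩ : ∃ V : Finset (Fin n), Odd V.card ∧ symmDiff V N ⊆ Z := by
      rcases Nat.even_or_odd N.card with hNe | hNo
      · refine ⟨symmDiff {z} N, ?_, ?_⟩
        · have h1 := J2_card {z} N
          rw [Finset.card_singleton] at h1
          rw [Nat.even_iff] at hNe
          rw [Nat.odd_iff]
          omega
        · rw [hself]
          exact Finset.singleton_subset_iff.2 hz
      · exact ⟨N, hNo, by rw [symmDiff_self]; exact Finset.empty_subset Z⟩
    have hsub : ∀ A : Finset (Fin n), symmDiff A N ⊆ Z ↔ symmDiff A V ⊆ Z := by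
      intro A
      constructor
      · intro h i hi
        by_contra hc
        have h1 := mt (@h i) hc
        have h2 := mt (@hVN i) hc
        rw [Finset.mem_symmDiff] at h1 h2 hi
        tauto
      · intro h i hi
        by_contra hc
        have h1 := mt (@h i) hc
        have h2 := mt (@hVN i) hc
        rw [Finset.mem_symmDiff] at h1 h2 hi
        tauto
    have hodd : ∀ B : Finset (Fin n), Even B.card → (symmDiff B V).card % 2 = 1 := by
      intro B hB
      have h1 := J2_card B V
      rw [Nat.even_iff] at hB
      rw [Nat.odd_iff] at hVo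
      omega
    have heven : ∀ j : Fin n, Even (symmDiff V {j}).card := by
      intro j
      have h1 := J2_card V {j}
      rw [Finset.card_singleton] at h1
      rw [Nat.odd_iff] at hVo
      rw [Nat.even_iff]
      omega
    have hsj : ∀ j : Fin n, symmDiff (symmDiff V {j}) V = {j} := by
      intro j
      rw [symmDiff_comm V {j}, hself]
    have ham : am l = ST V Z := by
      ext A
      rw [hmem]
      refine and_congr_right fun _ => ?_
      rw [← hsub, ← hgZ]
      constructor
      · intro h
        refine (h _ (heven z)).trans ((hgZ _).2 ((hsub _).2 ?_))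
        rw [hsj]
        exact Finset.singleton_subset_iff.2 hz
      · intro h B _
        exact h.trans (hg0 _)
    by_cases h3 : 3 ≤ Z.card
    · exact Or.inr ⟨V, Z, hVo, h3, ham⟩
    · left
      refine ⟨V, Z, hVo, ⟨z, hz⟩, ?_⟩
      rw [ham]
      ext A
      constructor
      · rintro ⟨h1, h2⟩
        have h4 := hodd A h1
        have h5 := Finset.card_le_card h2
        obtain ⟨j, hj⟩ := Finset.card_eq_one.1 (by omega : (symmDiff A V).card = 1)
        refine ⟨j, h2 (by rw [hj]; exact Finset.mem_singleton_self j), ?_⟩
        have h6 := hself A V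
        rw [hj] at h6
        rw [← h6, symmDiff_comm]
      · rintro ⟨j, hj, rfl⟩
        refine ⟨heven j, ?_⟩
        rw [hsj]
        exact Finset.singleton_subset_iff.2 hj

end DC99
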